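import Pool.Agent.TH716.CF.Emp

/-! Monomial changes for the emptiness of collisions: translations and the reflection. -/

set_option autoImplicit false

namespace Pool.Agent.N388.EFC

open Pool.Agent.TH603.EL Pool.Agent.TH716.CF

variable {p : ℕ} {ι : Type} {r w : ι → ℕ} {S S' : Set (ℤ × ℤ)}

theorem EmpG_shift (a : ℤ × ℤ) (h : EmpG p r w S') (hS : ∀ m ∈ S, a + m ∈ S') : EmpG p r w S := by
  obtain ⟨K, _, _, φ, hφ, hf⟩ := h
  refine ⟨K, _, inferInstance, φ, hφ, fun f h1 h2 => ?_⟩
  have h3 : (AddMonoidAlgebra.single a (1 : K) : Lau K) * f = 0 := by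
    apply hf
    · intro m hm
      rw [AddMonoidAlgebra.coeff_single_mul_apply, one_mul] at hm
      have := hS _ (h1 _ hm)
      rwa [add_neg_cancel_left] at this
    · intro i
      exact Ideal.mul_mem_left _ _ (h2 i)
  have h4 : (AddMonoidAlgebra.single (-a) (1 : K) : Lau K) *
      ((AddMonoidAlgebra.single a (1 : K) : Lau K) * f) = f := by
    rw [← mul_assoc, AddMonoidAlgebra.single_mul_single, neg_add_cancel, one_mul]
    exact one_mul f
  rw [← h4, h3, mul_zero]

/-- the reflection of the exponents -/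
def rf : ℤ × ℤ →+ ℤ × ℤ where
  toFun m := (-m.1, m.2)
  map_zero' := by simp
  map_add' m m' := by ext <;> simp; ring

theorem rf_injective : Function.Injective rf := by
  rintro ⟨a, b⟩ ⟨a', b'⟩ h
  simp only [rf, AddMonoidHom.coe_mk, ZeroHom.coe_mk, Prod.mk.injEq, neg_inj] at h
  rw [h.1, h.2]

theorem EmpG_refl (h : EmpG p r w S') (hS : ∀ m ∈ S, (-m.1, m.2) ∈ S') : EmpG p r w S := by
  obtain ⟨K, _, _, φ, hφ, hf⟩ := h
  let Φ : Lau K →+* Lau K := AddMonoidAlgebra.mapDomainRingHom K rf
  have hΦ : ∀ f, Φ f = AddMonoidAlgebra.mapDomain rf f := fun f => rfl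
  refine ⟨K, _, inferInstance, fun i => (φ i).comp Φ, fun i => ⟨fun c => ?_, ?_⟩, ?_⟩
  · rw [RingHom.comp_apply, hΦ, AddMonoidAlgebra.mapDomain_single, map_zero]
    exact (hφ i).const c
  · rw [RingHom.comp_apply, hΦ, AddMonoidAlgebra.mapDomain_single]
    have e0 : rf (1, 0) = (-1, 0) := by simp [rf]
    rw [e0]
    intro h1
    have e1 : φ i (AddMonoidAlgebra.single (-1, 0) 1) * φ i (AddMonoidAlgebra.single (1, 0) 1) = 1 := by
      rw [← map_mul, AddMonoidAlgebra.single_mul_single]
      have : ((-1, 0) + (1, 0) : ℤ × ℤ) = 0 := by simp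
      rw [this, mul_one]
      exact map_one (φ i)
    have h0 := congrArg (PowerSeries.coeff 0) e1
    have h2 := congrArg (PowerSeries.coeff 1) e1
    have e5 : (Finset.HasAntidiagonal.antidiagonal 1 : Finset (ℕ × ℕ)) = {(0, 1), (1, 0)} := by decide
    have e6 : (Finset.HasAntidiagonal.antidiagonal 0 : Finset (ℕ × ℕ)) = {(0, 0)} := by decide
    rw [PowerSeries.coeff_mul, PowerSeries.coeff_one, if_neg (by norm_num), e5,
      Finset.sum_insert (by decide), Finset.sum_singleton] at h2
    rw [PowerSeries.coeff_mul, PowerSeries.coeff_one, if_pos rfl, e6, Finset.sum_singleton] at h0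
    simp only at h0 h2
    have h3 : PowerSeries.coeff 0 (φ i (AddMonoidAlgebra.single (-1, 0) 1)) *
        PowerSeries.coeff 1 (φ i (AddMonoidAlgebra.single (1, 0) 1)) = 0 := by
      rw [h1, zero_mul, add_zero] at h2
      exact h2
    rcases mul_eq_zero.1 h3 with h4 | h4
    · rw [h4, zero_mul] at h0
      exact zero_ne_one h0
    · exact (hφ i).der h4
  · intro f h1 h2
    have h3 : Φ f = 0 := by
      apply hf
      · intro m hm
        rw [hΦ, AddMonoidAlgebra.coeff_mapDomain] at hm
        have h4 := Finsupp.mapDomain_support (Finsupp.mem_support_iff.2 hm)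
        rw [Finset.mem_image] at h4
        obtain ⟨m', hm', rfl⟩ := h4
        exact hS m' (h1 m' (Finsupp.mem_support_iff.1 hm'))
      · intro i
        exact transfer0 (φ i) Φ (h2 i)
    apply AddMonoidAlgebra.mapDomain_injective rf_injective
    rw [← hΦ, ← hΦ, h3, map_zero]

end Pool.Agent.N388.EFC
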