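import Pool.Agent.N388.EFC.Val
import Pool.Agent.N388.EFC.Mon
import Pool.Agent.N388.EFW.Dat1
import Pool.Agent.N388.EF.POS2
import Pool.Agent.N388.EF.TEST2
import Pool.Agent.TH518.CW.TwoC

/-! Collisions of `M + 2` points in the block, and of eleven points in the plane. -/

set_option autoImplicit false

namespace Pool.Agent.N388.EFC

open Finset Polynomial
open Pool.Agent.TH864.SX (Slp Blk)
open Pool.Agent.TH716.CF (EmpG Tri key_coll)
open Pool.Agent.N388.EF (S_TEST2 S_POS2)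
open Pool.Agent.N388.EFW
open Pool.Agent.H932R3 (JetDim jet_full)
open Pool.Agent.TH545.CF (coll_transfer)

variable {M : ℕ} {K : ℝ} {m x : ℕ}

/-- **the block** -/
theorem blockG (h : Dat M K m x 0) :
    EmpG 0 (fun _ : Unit => M + 2) (fun _ => m) (Blk M K (3 * x)) := by
  classical
  have hK := h.K0
  have hKM : 0 < K - M := by linarith [h.MK]
  have key := VALG (M + 2) m (SS M K x)
    (fun κ => ⌊ee K m x 0 + (K + 1) * ((m : ℝ) - κ)⌋) (by
      intro κ p hp hκp
      rw [mem_SS] at hp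
      obtain ⟨-, -, h3⟩ := hp
      rw [Int.le_floor]
      have h4 : (κ : ℝ) ≤ p.2 := by exact_mod_cast hκp
      have h5 := h.Kx
      have h6 : K * ((x : ℝ) - p.2) ≤ K * ((x : ℝ) - κ) :=
        mul_le_mul_of_nonneg_left (by linarith) hK.le
      push_cast at h5 ⊢
      rw [mul_sub, h5] at h6
      linarith) (by
      intro c hc
      have hR : ∀ κ ≤ m, ∀ D : ℤ, ee K m x 0 - ((M : ℝ) + 1 - K) * ((m : ℝ) - κ) < D →
          EF.Rel (SS M K x) c κ D := by
        intro κ hκ D hD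
        apply hc κ D
        have h1 : ⌊ee K m x 0 + (K + 1) * ((m : ℝ) - κ)⌋ <
            D + (((M + 2) * (m - κ) : ℕ) : ℤ) := by
          rw [Int.floor_lt]
          push_cast [Nat.cast_sub hκ]
          linarith
        linarith
      have hpos : ∀ κ ≤ m, ∀ D : ℤ, 1 ≤ D → EF.Rel (SS M K x) c κ D := by
        intro κ hκ D hD
        apply hR κ hκ D
        have h1 : (1 : ℝ) ≤ D := by exact_mod_cast hD
        have h2 : (κ : ℝ) ≤ m := by exact_mod_cast hκ
        have h3 := h.e12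
        have h4 : 0 ≤ ((M : ℝ) + 1 - K) * ((m : ℝ) - κ) := mul_nonneg h.lam0.le (by linarith)
        linarith
      choose g hg1 hg2 hg3 using h.quot c hpos
      have hb := h.solve' EF.t_TEST2 EF.t_POS2 (fun q => (g q.1).coeff q.2) (by
        intro n κ hκ
        apply h.red c g hg2 hg3 n κ
        apply hR κ (h.NN_lt_m hκ).le
        have := h.lt_NN.1 hκ
        push_cast
        linarith)
      have hg0 : ∀ t, g t = 0 := by
        intro t
        ext l
        rw [coeff_zero]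
        by_contra h1
        exact h1 (hb (t, l) (hg2 t l h1))
      rintro ⟨t, j⟩ hp
      have h1 : (colP M K x c t).coeff j = 0 := by
        rw [hg1 t, hg0 t, mul_zero, coeff_zero]
      rw [colP_coeff, cc_in hp] at h1
      exact h1)
  refine key.mono ?_
  rintro ⟨a, b⟩ hab
  obtain ⟨h1, h2, h3⟩ := hab
  simp only at h1 h2 h3
  have e : (((3 * x : ℕ) : ℝ)) / 3 = x := by push_cast; ring
  rw [e] at h2 h3
  obtain ⟨j', rfl⟩ : ∃ j' : ℕ, b = j' := ⟨b.toNat, by omega⟩
  push_cast at h2 h3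
  have hjx : (j' : ℝ) ≤ x := by
    by_contra h4
    push Not at h4
    have h5 : ((x : ℝ) - j') < 0 := by linarith
    have h6 : K * ((x : ℝ) - j') < (K - M) * ((x : ℝ) - j') := by
      have : (0 : ℝ) < M := by exact_mod_cast h.M0
      nlinarith
    linarith
  have ha0 : (0 : ℝ) ≤ a := by
    have : 0 ≤ (K - M) * ((x : ℝ) - j') := mul_nonneg hKM.le (by linarith)
    linarith
  have ha1 : 0 ≤ a := by exact_mod_cast ha0
  obtain ⟨t, rfl⟩ : ∃ t : ℕ, a = t := ⟨a.toNat, by omega⟩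
  push_cast at h2 h3
  refine ⟨(t, j'), ?_, rfl⟩
  rw [mem_SS]
  refine ⟨⟨?_, by exact_mod_cast hjx⟩, h2, h3⟩
  apply Nat.le_floor
  refine h3.trans ?_
  apply mul_le_mul_of_nonneg_left _ hK.le
  have : (0 : ℝ) ≤ j' := Nat.cast_nonneg j'
  linarith

/-- the triangle -/
theorem triG (h : Dat 9 K m x 0) :
    EmpG 0 (fun _ : Unit => 11) (fun _ => m) (Tri (3 * x) (K / 3 - 3)) := by
  have h1 := blockG h
  have h2 := EmpG_refl (S := {q : ℤ × ℤ | (-q.1, q.2) ∈ Blk 9 K (3 * x)}) h1 (fun q hq => hq)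
  have h3 := EmpG_shift (S := {q : ℤ × ℤ | (-(6 * x : ℤ) + q.1, q.2) ∈
    {q : ℤ × ℤ | (-q.1, q.2) ∈ Blk 9 K (3 * x)}}) (-(6 * x : ℤ), 0) h2 (by
    intro q hq
    have e : ((-(6 * x : ℤ), 0) : ℤ × ℤ) + q = (-(6 * x : ℤ) + q.1, q.2) := by
      ext <;> simp
    rw [e]
    exact hq)
  refine h3.shear 6 ?_
  rintro ⟨a, k⟩ ⟨g1, g2, g3⟩
  simp only [Set.mem_setOf_eq] at g1 g2 g3 ⊢
  push_cast at g2 g3
  refine ⟨g1, ?_, ?_⟩
  · simp only
    push_cast
    linarith
  · simp only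
    push_cast
    linarith

universe u

/-- **eleven points, one critical degree** -/
theorem coll_crit {k : Type u} [Field k] [CharZero k] (h : Dat 9 K m x 0) :
    ∃ F : MvPolynomial (Fin (11 + 1)) k, F ≠ 0 ∧
      ∀ (c : k) (a : Fin 11 → k), MvPolynomial.eval (Fin.cons c a : Fin (11 + 1) → k) F ≠ 0 →
        ∀ d' ≤ 3 * x, JetDim 11 m c a d' := by
  have hMK := h.MK
  have hKM := h.KM
  push_cast at hMK hKM
  obtain ⟨L, _, _, c0, a0, h0⟩ := key_coll (by linarith) (by linarith) (triG h)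
  obtain ⟨F, hF, hF'⟩ := coll_transfer (L := k) 0 (r := 11) (m := m) (c0 := c0) (a0 := a0)
    (d := 3 * x) (fun P hP hP' => h0 P hP hP')
  refine ⟨F, hF, fun c a hc d' hd' => ?_⟩
  exact jet_full ((hF' c a hc).mono hd').rk d' le_rfl

end Pool.Agent.N388.EFC
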