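import Pool.Agent.N388.EFC.Coll
import Pool.Agent.TH864.SX.Thirteen

/-! Collisions of eleven points in characteristic zero. -/

set_option autoImplicit false

namespace Pool.Agent.N388.EFC

open Pool.Agent.TH864.SX (Slp K11 num11 sq11)
open Pool.Agent.N388.EFW
open Pool.Agent.H932R3 (JetDim)

universe u

/-- the data in a critical degree -/
theorem dat11 {m x : ℕ} (h4 : √11 * m < 3 * (x : ℝ))
    (h5 : (3 * (x : ℝ) - √11 * m) * (√11 + 3) < 3 * (√11 - 3)) : Dat 9 K11 m x 0 := by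
  have hs := sq11
  have hs3 : 3.3 < √(11 : ℝ) := by
    rw [Real.lt_sqrt (by norm_num)]; norm_num
  have hs4 : √(11 : ℝ) < 3.32 := by
    rw [Real.sqrt_lt' (by norm_num)]; norm_num
  have hsl : Slp 9 2 K11 := num11.sl
  have e1 : ee K11 m x 0 = (3 + √11) / 2 * (3 * x - √11 * m) := by
    unfold ee K11
    push_cast
    linear_combination ((m : ℝ) / 2) * hs
  have e0 : 0 < ee K11 m x 0 := by
    rw [e1]
    apply mul_pos (by positivity)
    linarith
  have e2 : ee K11 m x 0 < K11 - (9 : ℕ) := by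
    rw [e1]
    unfold K11
    push_cast
    linarith
  have hKe : K11 * x = ee K11 m x 0 + (K11 + 1) * m := by unfold ee; push_cast; ring
  have hK : K11 = 3 * (3 + √11) / 2 := rfl
  have hm20 : 20 ≤ m := by
    by_contra hcon
    push Not at hcon
    have hmR : (m : ℝ) ≤ 19 := by
      have : m ≤ 19 := by omega
      exact_mod_cast this
    have hm0 : (0 : ℝ) ≤ m := Nat.cast_nonneg m
    push_cast at e2
    have hK1 : (9.45 : ℝ) < K11 := by rw [hK]; linarith
    have hK2 : K11 < (9.49 : ℝ) := by rw [hK]; linarith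
    have hxm : m < x := by
      have h6 : K11 * (m : ℝ) < K11 * x := by rw [hKe]; nlinarith
      have h7 := lt_of_mul_lt_mul_left h6 (by linarith)
      exact_mod_cast h7
    obtain ⟨Y, hY⟩ : ∃ Y, x = m + Y := ⟨x - m, by omega⟩
    have hYR : K11 * (Y : ℝ) = ee K11 m x 0 + m := by
      rw [hY] at hKe
      push_cast at hKe
      rw [← hY] at hKe
      linarith
    have hY3 : Y < 3 := by
      have h8 : (Y : ℝ) < 3 := by
        by_contra h9
        push Not at h9
        nlinarith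
      exact_mod_cast h8
    have hY1 : 1 ≤ Y := by omega
    rcases (show Y = 1 ∨ Y = 2 by omega) with h | h
    · rw [h] at hYR
      push_cast at hYR
      have h9 : (m : ℝ) < 10 := by linarith
      have h10 : (9 : ℝ) < m := by linarith
      have h11 : m < 10 := by exact_mod_cast h9
      have h12 : 9 < m := by exact_mod_cast h10
      omega
    · rw [h] at hYR
      push_cast at hYR
      have h9 : (m : ℝ) < 19 := by linarith
      have h10 : (18 : ℝ) < m := by linarith
      have h11 : m < 19 := by exact_mod_cast h9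
      have h12 : 18 < m := by exact_mod_cast h10
      omega
  have hp1 : 0 < 2 * K11 + 1 := by have := hsl.K0; linarith
  have h7 : ee K11 m x 0 * (2 * K11 + 1) < 10 := by
    have h8 : ee K11 m x 0 < 0.48 := by rw [hK] at e2; push_cast at e2; linarith
    have h9 : 2 * K11 + 1 < 19.97 := by rw [hK]; linarith
    have h10 : ee K11 m x 0 * (2 * K11 + 1) ≤ 0.48 * (2 * K11 + 1) :=
      mul_le_mul_of_nonneg_right h8.le hp1.le
    linarith
  refine dat_of hsl e0.le e2 ?_ ?_ (by omega)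
  · push_cast
    linarith
  · unfold kk
    have h8 : ⌊ee K11 m x 0 * (2 * K11 + 1)⌋₊ < 10 := by
      rw [Nat.floor_lt (mul_nonneg e0.le hp1.le)]
      exact_mod_cast h7
    omega

/-- **collisions of eleven points in characteristic zero** -/
theorem eleven_coll0 {m : ℕ} (k : Type u) [Field k] [CharZero k] :
    ∃ F : MvPolynomial (Fin (11 + 1)) k, F ≠ 0 ∧
      ∀ (c : k) (a : Fin 11 → k), MvPolynomial.eval (Fin.cons c a : Fin (11 + 1) → k) F ≠ 0 →
        ∀ d : ℕ, ¬ (3 ∣ d ∧ 3 * (√11 - 3) / (√11 + 3) ≤ (d : ℝ) - √11 * m ∧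
          (d : ℝ) - √11 * m < (√11 - 3) / 2) → JetDim 11 m c a d := by
  obtain ⟨F1, hF1, hF1'⟩ := Pool.Agent.TH518.CW.eleven_coll (m := m) k
  obtain ⟨F2, hF2, hF2'⟩ : ∃ F : MvPolynomial (Fin (11 + 1)) k, F ≠ 0 ∧
      ∀ (c : k) (a : Fin 11 → k), MvPolynomial.eval (Fin.cons c a : Fin (11 + 1) → k) F ≠ 0 →
        ∀ x : ℕ, √11 * m < 3 * (x : ℝ) → (3 * (x : ℝ) - √11 * m) * (√11 + 3) < 3 * (√11 - 3) →
          JetDim 11 m c a (3 * x) := by
    by_cases hex : ∃ x : ℕ, √11 * m < 3 * (x : ℝ) ∧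
        (3 * (x : ℝ) - √11 * m) * (√11 + 3) < 3 * (√11 - 3)
    · obtain ⟨x, h1, h2⟩ := hex
      obtain ⟨F, hF, hF'⟩ := coll_crit (k := k) (dat11 h1 h2)
      refine ⟨F, hF, fun c a hc x' h3 h4 => hF' c a hc _ ?_⟩
      have hs3 : 3.3 < √(11 : ℝ) := by
        rw [Real.lt_sqrt (by norm_num)]; norm_num
      have hs4 : √(11 : ℝ) < 3.32 := by
        rw [Real.sqrt_lt' (by norm_num)]; norm_num
      have h5 : 3 * (x' : ℝ) - √11 * m < 1 := by
        by_contra hcon
        push Not at hcon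
        nlinarith
      have h6 : (x' : ℝ) < x + 1 := by linarith
      have h7 : x' < x + 1 := by exact_mod_cast h6
      omega
    · refine ⟨1, one_ne_zero, fun c a _ x h3 h4 => ?_⟩
      exact absurd ⟨x, h3, h4⟩ hex
  refine ⟨F1 * F2, mul_ne_zero hF1 hF2, fun c a hc d hd => ?_⟩
  rw [map_mul] at hc
  by_cases hold : ¬ 3 ∣ d ∨ (d : ℝ) ≤ √((11 : ℕ) : ℝ) * m ∨
      √((11 : ℕ) : ℝ) * (2 * m + 1) ≤ 2 * d + 3
  · exact hF1' c a (left_ne_zero_of_mul hc) d hold
  push Not at hold
  push_cast at hold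
  obtain ⟨h3, h4, h5⟩ := hold
  have hs0 : 0 ≤ √(11 : ℝ) := Real.sqrt_nonneg _
  have hG2 : (d : ℝ) - √11 * m < 3 * (√11 - 3) / (√11 + 3) := by
    by_contra hcon
    push Not at hcon
    exact hd ⟨h3, hcon, by linarith⟩
  obtain ⟨x, rfl⟩ := h3
  rw [lt_div_iff₀ (by positivity)] at hG2
  push_cast at h4 hG2
  exact hF2' c a (right_ne_zero_of_mul hc) x h4 hG2

end Pool.Agent.N388.EFC
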