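import Pool.Agent.N388.EF.Stm
import Pool.Agent.TH716.CF.Emp

/-! Collisions: the normal coefficients of a power of the ideal of a curvilinear scheme on the curve
`w = 1 + 1 / z`. -/

set_option autoImplicit false

namespace Pool.Agent.N388.EFC

open Pool.Agent.TH603.EL Pool.Agent.TH716.CF

variable {L : Type} [Field L]

/-- `u + s` -/
noncomputable def al (u : L) : PowerSeries L := PowerSeries.C u + PowerSeries.X

theorem al_isUnit {u : L} (hu : u ≠ 0) : IsUnit (al u) := by
  rw [PowerSeries.isUnit_iff_constantCoeff]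
  unfold al
  simp [hu]

/-- `C (1 + u + s) + y` -/
noncomputable def be (u : L) : PowerSeries (PowerSeries L) :=
  PowerSeries.C (1 + al u) + PowerSeries.X

theorem be_isUnit {u : L} (hu : 1 + u ≠ 0) : IsUnit (be u) := by
  rw [PowerSeries.isUnit_iff_constantCoeff]
  unfold be
  rw [map_add, PowerSeries.constantCoeff_C, PowerSeries.constantCoeff_X, add_zero,
    PowerSeries.isUnit_iff_constantCoeff]
  unfold al
  simp [hu]

/-- the images of the monomials -/
noncomputable def mon (a : (PowerSeries L)ˣ) (b : (PowerSeries (PowerSeries L))ˣ) :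
    Multiplicative (ℤ × ℤ) →* PowerSeries (PowerSeries L) where
  toFun m := PowerSeries.C ((a ^ (-m.toAdd.1) : (PowerSeries L)ˣ) : PowerSeries L) *
    ((b ^ m.toAdd.2 : (PowerSeries (PowerSeries L))ˣ) : PowerSeries (PowerSeries L))
  map_one' := by simp
  map_mul' m m' := by
    rw [toAdd_mul, Prod.fst_add, Prod.snd_add, zpow_add, Units.val_mul, neg_add, zpow_add,
      Units.val_mul, map_mul]
    ring

/-- the expansion along the curve `w = 1 + 1 / z` -/
noncomputable def Psi (a : (PowerSeries L)ˣ) (b : (PowerSeries (PowerSeries L))ˣ) :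
    Lau L →+* PowerSeries (PowerSeries L) :=
  AddMonoidAlgebra.liftNCRingHom ((PowerSeries.C).comp (PowerSeries.C)) (mon a b)
    (fun _ _ => Commute.all _ _)

theorem Psi_single (a : (PowerSeries L)ˣ) (b : (PowerSeries (PowerSeries L))ˣ) (m : ℤ × ℤ) (c : L) :
    Psi a b (AddMonoidAlgebra.single m c) = PowerSeries.C (PowerSeries.C c) *
      (PowerSeries.C ((a ^ (-m.1) : (PowerSeries L)ˣ) : PowerSeries L) *
        ((b ^ m.2 : (PowerSeries (PowerSeries L))ˣ) : PowerSeries (PowerSeries L))) := by
  unfold Psi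
  rw [AddMonoidAlgebra.liftNCRingHom_single]
  rfl

theorem coeff_be_pow (u : L) (n κ : ℕ) : PowerSeries.coeff κ (be u ^ n) =
    (1 + al u) ^ (n - κ) * ((n.choose κ : ℕ) : PowerSeries L) := by
  unfold be
  rw [add_pow, map_sum]
  have h1 : ∀ i ∈ Finset.range (n + 1), PowerSeries.coeff κ ((PowerSeries.C (1 + al u)) ^ i *
      (PowerSeries.X : PowerSeries (PowerSeries L)) ^ (n - i) * ((n.choose i : ℕ) : PowerSeries (PowerSeries L))) =
      if κ = n - i then (1 + al u) ^ i * ((n.choose i : ℕ) : PowerSeries L) else 0 := by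
    intro i _
    rw [mul_right_comm, ← map_pow, ← map_natCast (PowerSeries.C : PowerSeries L →+* _), ← map_mul,
      PowerSeries.coeff_C_mul, PowerSeries.coeff_X_pow]
    split_ifs <;> simp
  rw [Finset.sum_congr rfl h1]
  rcases Nat.lt_or_ge n κ with h | h
  · rw [Nat.choose_eq_zero_of_lt h, Nat.cast_zero, mul_zero]
    refine Finset.sum_eq_zero fun i _ => ?_
    rw [if_neg (by omega)]
  · rw [Finset.sum_eq_single (n - κ)]
    · rw [if_pos (by omega), Nat.choose_symm h]
    · intro i hi hne
      rw [Finset.mem_range] at hi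
      rw [if_neg (by omega)]
    · intro hi
      rw [Finset.mem_range] at hi
      omega

/-- the germ -/
noncomputable def ger (a : (PowerSeries L)ˣ) (b : (PowerSeries (PowerSeries L))ˣ) :
    Lau L →+* PowerSeries L :=
  (PowerSeries.constantCoeff).comp (Psi a b)

theorem ger_isGerm {u : L} (a : (PowerSeries L)ˣ) (ha : (a : PowerSeries L) = al u)
    (b : (PowerSeries (PowerSeries L))ˣ) : IsGerm (ger a b) := by
  constructor
  · intro c
    unfold ger
    rw [RingHom.comp_apply, Psi_single]
    simp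
  · unfold ger
    rw [RingHom.comp_apply, Psi_single]
    have e1 : ((a⁻¹ : (PowerSeries L)ˣ) : PowerSeries L) * al u = 1 := by
      rw [← ha]
      exact Units.inv_mul a
    have h0 := congrArg (PowerSeries.coeff 0) e1
    have h1 := congrArg (PowerSeries.coeff 1) e1
    simp only [map_one, map_mul, zpow_zero, Units.val_one, mul_one, zpow_neg, zpow_one,
      PowerSeries.constantCoeff_C, one_mul]
    intro h2
    rw [al, mul_add, map_add, PowerSeries.coeff_mul_C, h2, zero_mul, zero_add,
      show (1 : ℕ) = 0 + 1 from rfl, PowerSeries.coeff_succ_mul_X, PowerSeries.coeff_one,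
      if_neg (by norm_num)] at h1
    rw [al, mul_add, map_add, PowerSeries.coeff_mul_C, h1, zero_mul, zero_add,
      PowerSeries.coeff_zero_mul_X, PowerSeries.coeff_one, if_pos rfl] at h0
    exact zero_ne_one h0

/-- the coefficients of the elements of the power of the ideal -/
theorem coeff_dvd {R : Type} [CommRing R] {s : R} (r m : ℕ) {F : PowerSeries R}
    (hF : F ∈ ((Ideal.span {s ^ r}).comap (PowerSeries.constantCoeff (R := R))) ^ m) :
    ∀ κ < m, s ^ (r * (m - κ)) ∣ PowerSeries.coeff κ F := by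
  induction m generalizing F with
  | zero => intro κ hκ; omega
  | succ m ih =>
    rw [pow_succ] at hF
    refine Submodule.mul_induction_on hF ?_ ?_
    · intro G hG H hH κ hκ
      rw [Ideal.mem_comap, Ideal.mem_span_singleton] at hH
      rw [PowerSeries.coeff_mul]
      refine Finset.dvd_sum fun p hp => ?_
      rw [Finset.HasAntidiagonal.mem_antidiagonal] at hp
      rcases Nat.eq_zero_or_pos p.2 with h2 | h2
      · have h3 : p.1 = κ := by omega
        rw [h2, h3, PowerSeries.coeff_zero_eq_constantCoeff_apply]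
        rcases Nat.lt_or_ge κ m with h4 | h4
        · have h5 := ih hG κ h4
          have e1 : r * (m + 1 - κ) = r * (m - κ) + r := by
            rw [show m + 1 - κ = (m - κ) + 1 by omega]
            ring
          rw [e1, pow_add]
          exact mul_dvd_mul h5 hH
        · have e1 : r * (m + 1 - κ) = r := by
            rw [show m + 1 - κ = 1 by omega, mul_one]
          rw [e1]
          exact Dvd.dvd.mul_left hH _
      · have h5 := ih hG p.1 (by omega)
        refine Dvd.dvd.mul_right ((pow_dvd_pow s ?_).trans h5) _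
        apply Nat.mul_le_mul_left
        omega
    · intro G H hG hH κ hκ
      rw [map_add]
      exact dvd_add (hG κ hκ) (hH κ hκ)

open Polynomial in
/-- from the expansion at `u` to the divisibility -/
theorem dvd_of_taylor (u : L) (P : L[X]) (n : ℕ)
    (h : (PowerSeries.X : PowerSeries L) ^ n ∣ P.eval₂ (PowerSeries.C) (al u)) :
    (X - C u) ^ n ∣ P := by
  have key : P.eval₂ (PowerSeries.C) (al u) = ((P.comp (C u + X) : L[X]) : PowerSeries L) := by
    have h1 := Polynomial.hom_eval₂ P (C : L →+* L[X])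
      (Polynomial.coeToPowerSeries.ringHom : L[X] →+* PowerSeries L) (C u + X)
    have e1 : (Polynomial.coeToPowerSeries.ringHom : L[X] →+* PowerSeries L).comp
        (C : L →+* L[X]) = PowerSeries.C := by
      ext c : 1
      simp
    rw [e1] at h1
    have e2 : (Polynomial.coeToPowerSeries.ringHom : L[X] →+* PowerSeries L) (C u + X) = al u := by
      unfold al
      simp
    rw [e2] at h1
    rw [← h1]
    rfl
  rw [key, PowerSeries.X_pow_dvd_iff] at h
  have h2 : (X : L[X]) ^ n ∣ P.comp (C u + X) := by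
    rw [Polynomial.X_pow_dvd_iff]
    intro d hd
    have := h d hd
    rwa [Polynomial.coeff_coe] at this
  obtain ⟨Q, hQ⟩ := h2
  have h3 : (P.comp (C u + X)).comp (X - C u) = P := by
    rw [comp_assoc]
    simp
  rw [← h3, hQ, mul_comp, pow_comp, X_comp]
  exact Dvd.intro _ rfl

open Polynomial in
/-- **the normal coefficients** -/
theorem HP_dvd {u : L} (a : (PowerSeries L)ˣ) (ha : (a : PowerSeries L) = al u)
    (b : (PowerSeries (PowerSeries L))ˣ) (hb : (b : PowerSeries (PowerSeries L)) = be u)
    (S : Finset (ℕ × ℕ)) (T r m κ : ℕ) (hT : ∀ p ∈ S, p.1 ≤ T) (hκ : κ < m) (f : Lau L)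
    (hS : ∀ q, f.coeff q ≠ 0 → ∃ s ∈ S, q = ((s.1 : ℤ), (s.2 : ℤ)))
    (hf : f ∈ J (ger a b) r ^ m) :
    (X - C u) ^ (r * (m - κ)) ∣ EF.HP S T κ (fun p => f.coeff ((p.1 : ℤ), (p.2 : ℤ))) := by
  classical
  -- the power of the ideal
  have h1 : J (ger a b) r = ((Ideal.span {(PowerSeries.X : PowerSeries L) ^ r}).comap
      (PowerSeries.constantCoeff (R := PowerSeries L))).comap (Psi a b) := rfl
  rw [h1] at hf
  have h2 := Ideal.le_comap_pow (Psi a b) m hf
  rw [Ideal.mem_comap] at h2
  have h3 := coeff_dvd r m h2 κ hκ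
  -- the coefficient
  have hinj : Function.Injective (fun p : ℕ × ℕ => (((p.1 : ℤ), (p.2 : ℤ)) : ℤ × ℤ)) := by
    rintro ⟨a, b⟩ ⟨a', b'⟩ h
    simp only [Prod.mk.injEq, Nat.cast_inj] at h
    rw [h.1, h.2]
  have hfs : f = ∑ p ∈ S, AddMonoidAlgebra.single ((((p.1 : ℤ), (p.2 : ℤ)) : ℤ × ℤ))
      (f.coeff ((p.1 : ℤ), (p.2 : ℤ))) := by
    ext q
    rw [AddMonoidAlgebra.coeff_sum, Finsupp.finsetSum_apply]
    simp only [AddMonoidAlgebra.coeff_single, Finsupp.single_apply]
    by_cases hq : f.coeff q = 0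
    · rw [hq, Finset.sum_eq_zero]
      intro p _
      split_ifs with h
      · rw [h, hq]
      · rfl
    · obtain ⟨p, hp, rfl⟩ := hS q hq
      rw [Finset.sum_eq_single p]
      · rw [if_pos rfl]
      · intro p' _ hne
        rw [if_neg]
        intro h
        exact hne (hinj h)
      · intro h
        exact absurd hp h
  have h4 : PowerSeries.coeff κ (Psi a b f) = ∑ p ∈ S,
      PowerSeries.C (f.coeff ((p.1 : ℤ), (p.2 : ℤ)) * ((p.2.choose κ : ℕ) : L)) *
        (((a ^ (-(p.1 : ℤ)) : (PowerSeries L)ˣ) : PowerSeries L) * (1 + al u) ^ (p.2 - κ)) := by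
    conv_lhs => rw [hfs]
    rw [map_sum, map_sum]
    refine Finset.sum_congr rfl fun p _ => ?_
    rw [Psi_single]
    simp only
    rw [zpow_natCast, Units.val_pow_eq_pow_val, hb, PowerSeries.coeff_C_mul,
      PowerSeries.coeff_C_mul, coeff_be_pow, map_mul, map_natCast]
    ring
  have h5 : (EF.HP S T κ (fun p => f.coeff ((p.1 : ℤ), (p.2 : ℤ)))).eval₂ (PowerSeries.C) (al u) =
      al u ^ (T + κ) * PowerSeries.coeff κ (Psi a b f) := by
    rw [h4, Finset.mul_sum]
    unfold EF.HP
    rw [Polynomial.eval₂_finsetSum]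
    refine Finset.sum_congr rfl fun p hp => ?_
    rw [eval₂_mul, eval₂_mul, eval₂_C, eval₂_X_pow, eval₂_pow, eval₂_add, eval₂_one, eval₂_X]
    have e1 : al u ^ (T + κ) * ((a ^ (-(p.1 : ℤ)) : (PowerSeries L)ˣ) : PowerSeries L) =
        al u ^ (T - p.1 + κ) := by
      have e2 : al u ^ (T + κ) = al u ^ (T - p.1 + κ) * al u ^ p.1 := by
        rw [← pow_add]
        congr 1
        have := hT p hp
        omega
      rw [e2, mul_assoc, ← ha, ← Units.val_pow_eq_pow_val a p.1, ← Units.val_mul, zpow_neg,
        zpow_natCast, mul_inv_cancel, Units.val_one, mul_one]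
    rw [← e1]
    ring
  apply dvd_of_taylor
  rw [h5]
  exact Dvd.dvd.mul_left h3 _

end Pool.Agent.N388.EFC
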