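import Pool.Agent.N388.EFC.Germ
import Pool.Agent.N388.EF.VALw
import Pool.Agent.TH716.CF.Flat

/-! Collisions: emptiness from the relations (adapted from `EF.VALw`). -/

set_option autoImplicit false

namespace Pool.Agent.N388.EFC

open Finset Polynomial
open Pool.Agent.TH603.EL (Lau)
open Pool.Agent.TH716.CF (J EmpG IsGerm)
open Pool.Agent.N388.EF (HP)

/-- emptiness from the relations for a collision -/
theorem VALG (N m : ℕ) (S : Finset (ℕ × ℕ)) (B : ℕ → ℤ)
    (hB : ∀ κ, ∀ p ∈ S, κ ≤ p.2 → (p.1 : ℤ) - κ ≤ B κ)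
    (hc : ∀ c : ℕ × ℕ → ℚ, (∀ κ : ℕ, ∀ D : ℤ, B κ - ((N * (m - κ) : ℕ) : ℤ) < D → EF.Rel S c κ D) →
      ∀ p ∈ S, c p = 0) :
    EmpG 0 (fun _ : Unit => N) (fun _ => m) {p : ℤ × ℤ | ∃ s ∈ S, p = ((s.1 : ℤ), (s.2 : ℤ))} := by
  classical
  have hinj : Function.Injective (algebraMap ℚ[X] (RatFunc ℚ)) :=
    IsFractionRing.injective ℚ[X] (RatFunc ℚ)
  have : CharZero (RatFunc ℚ) := by
    have h1 : Function.Injective ((algebraMap ℚ[X] (RatFunc ℚ)).comp C) :=
      hinj.comp C_injective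
    exact charZero_of_injective_ringHom h1
  obtain ⟨u, hu⟩ : ∃ u : RatFunc ℚ, u = algebraMap ℚ[X] (RatFunc ℚ) (C (((0 : ℕ) : ℚ) + 1) * X) :=
    ⟨_, rfl⟩
  have hu0 : u ≠ 0 := by
    rw [hu, Ne, map_eq_zero_iff _ hinj]
    apply mul_ne_zero _ X_ne_zero
    rw [Ne, C_eq_zero]
    positivity
  have hu1 : 1 + u ≠ 0 := by
    rw [hu, ← map_one (algebraMap ℚ[X] (RatFunc ℚ)), ← map_add, Ne, map_eq_zero_iff _ hinj]
    intro h
    have := congrArg (eval 0) h
    simp at this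
  obtain ⟨a, ha⟩ : ∃ a : (PowerSeries (RatFunc ℚ))ˣ, (a : PowerSeries (RatFunc ℚ)) = al u :=
    ⟨(al_isUnit hu0).unit, rfl⟩
  obtain ⟨b, hb⟩ : ∃ b : (PowerSeries (PowerSeries (RatFunc ℚ)))ˣ,
      (b : PowerSeries (PowerSeries (RatFunc ℚ))) = be u := ⟨(be_isUnit hu1).unit, rfl⟩
  refine ⟨RatFunc ℚ, inferInstance, CharP.ofCharZero _, fun _ => ger a b,
    fun _ => ger_isGerm a ha b, ?_⟩
  intro f hfS hfL
  by_contra hf
  obtain ⟨q, hq⟩ : ∃ q, f.coeff q ≠ 0 := by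
    by_contra hcon
    push Not at hcon
    exact hf (Pool.Agent.TH716.CF.eq_zero_of_coeff hcon)
  obtain ⟨p0, hp0, hqp⟩ := hfS q hq
  let F : ℕ × ℕ → RatFunc ℚ := fun p => f.coeff ((p.1 : ℤ), (p.2 : ℤ))
  have hFp0 : F p0 ≠ 0 := by
    change f.coeff ((p0.1 : ℤ), (p0.2 : ℤ)) ≠ 0
    rw [← hqp]
    exact hq
  obtain ⟨s, g, hs0, hsg, p1, hp1, hgp1⟩ := EF.VALc.clear S F p0 hp0 hFp0
  obtain ⟨T, hT⟩ : ∃ T : ℕ, T = S.sup Prod.fst := ⟨_, rfl⟩
  have hST : ∀ p ∈ S, p.1 ≤ T := fun p hp => by rw [hT]; exact Finset.le_sup (f := Prod.fst) hp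
  have hdiv : ∀ κ, (X : ℚ[X]) ^ ((((T : ℤ) - B κ).toNat) + N * (m - κ)) ∣
      HP S T κ (fun p => (g p).eval 0) := by
    intro κ
    have h1 : (X : ℚ[X][X]) ^ (((T : ℤ) - B κ).toNat) ∣ HP S T κ g := by
      apply EF.VALc.X_dvd_HP
      intro p hp hk
      have h2 := hB κ p hp hk
      have h3 := hST p hp
      omega
    have h2 : ∀ i : Fin 1, ((X : (RatFunc ℚ)[X]) -
        C (algebraMap ℚ[X] (RatFunc ℚ) (C (((i : ℕ) : ℚ) + 1) * X))) ^ (N * (m - κ)) ∣
        (HP S T κ g).map (algebraMap ℚ[X] (RatFunc ℚ)) := by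
      intro i
      rw [EF.VALc.HP_map, EF.VALc.HP_smul S T κ F _ s hsg]
      apply Dvd.dvd.mul_left
      rcases Nat.lt_or_ge κ m with hκ | hκ
      swap
      · rw [Nat.sub_eq_zero_of_le hκ, mul_zero, pow_zero]
        exact one_dvd _
      have hi : (i : ℕ) = 0 := by omega
      rw [hi, ← hu]
      exact HP_dvd a ha b hb S T N m κ hST hκ f hfS (hfL ())
    have h3 := EF.VALbw 1 _ (fun _ => N * (m - κ)) (HP S T κ g) h1 h2
    rw [EF.VALc.HP_map] at h3
    simpa using h3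
  have hzero := hc (fun p => (g p).eval 0) (by
    intro κ D hD
    unfold EF.Rel
    rcases lt_or_ge (T : ℤ) D with hTD | hTD
    · rw [Finset.filter_false_of_mem, Finset.sum_empty]
      intro p hp
      have := hST p hp
      omega
    · obtain ⟨r, hr⟩ : ∃ r : ℕ, (r : ℤ) = T - D := ⟨((T : ℤ) - D).toNat, by omega⟩
      have hrv : r < (((T : ℤ) - B κ).toNat) + N * (m - κ) := by
        have : (T : ℤ) - B κ ≤ (((T : ℤ) - B κ).toNat : ℤ) := Int.self_le_toNat _
        have h4 : (r : ℤ) < (((T : ℤ) - B κ).toNat : ℤ) + ((N * (m - κ) : ℕ) : ℤ) := by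
          rw [hr]; linarith
        exact_mod_cast h4
      have hcoef := (X_pow_dvd_iff.1 (hdiv κ)) r hrv
      rw [EF.VALc.coeff_HP] at hcoef
      refine Eq.trans ?_ hcoef
      rw [Finset.sum_filter]
      refine Finset.sum_congr rfl fun p hp => ?_
      have hpT := hST p hp
      by_cases hDp : D ≤ (p.1 : ℤ)
      · rw [if_pos hDp]
        obtain ⟨t, ht⟩ : ∃ t : ℕ, t = ((p.1 : ℤ) - D).toNat := ⟨_, rfl⟩
        have ht' : (t : ℤ) = p.1 - D := by omega
        rw [← ht]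
        by_cases hκt : κ ≤ t
        · rw [if_pos (by omega)]
          have e1 : r - (T - p.1 + κ) = t - κ := by omega
          rw [e1, mul_assoc, mul_assoc]
          congr 1
          rw [← Nat.cast_mul, ← Nat.cast_mul]
          congr 1
          by_cases htp : t ≤ p.2
          · exact Nat.choose_mul hκt
          · rw [Nat.choose_eq_zero_of_lt (show p.2 < t by omega), zero_mul]
            by_cases hk2 : κ ≤ p.2
            · rw [Nat.choose_eq_zero_of_lt (show p.2 - κ < t - κ by omega), mul_zero]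
            · rw [Nat.choose_eq_zero_of_lt (show p.2 < κ by omega), zero_mul]
        · rw [if_neg (by omega), Nat.choose_eq_zero_of_lt (show t < κ by omega)]
          simp
      · rw [if_neg hDp, if_neg (by omega), mul_zero])
  exact hgp1 (hzero p1 hp1)

end Pool.Agent.N388.EFC
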